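import Pool.Agent.Lib.H99Cap.Cap

/-!
Under uniformization of `Σ¹_m` relations by `Σ¹_m` sets, measurability of `Σ¹_m` sets is equivalent
to capacitability of `Σ¹_m` sets with respect to all `Σ¹_m` random sets.
-/

set_option autoImplicit false

namespace H97Cap

open MeasureTheory Set Topology Filter H97Proj
open scoped ENNReal

/-- `Γ = Σ¹_m` has the uniformization property (in the plane). -/
def Unif (m : ℕ) : Prop :=
  ∀ R : Set (Baire × Baire), IsSigma m (Baire × Baire) R →
    ∃ S ⊆ R, IsSigma m (Baire × Baire) S ∧ ∀ x, (∃ y, (x, y) ∈ R) → ∃! y, (x, y) ∈ S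

/-- Up to a null set, the random set `y ↦ {x | (x, y) ∈ N}` meets `A` only where it meets one of
countably many compact subsets of `A`. -/
def Capacitable (N : Set (Baire × Baire)) (A : Set Baire) : Prop :=
  ∃ P : ℕ → Set Baire, (∀ i, IsCompact (P i)) ∧ (∀ i, P i ⊆ A) ∧
    lam ({y | ∃ x ∈ A, (x, y) ∈ N} \ ⋃ i, {y | ∃ x ∈ P i, (x, y) ∈ N}) = 0

/-- Measurability and uniformization give capacitability. -/
theorem capac_sigma {m : ℕ} (hm : 1 ≤ m)
    (hLM : ∀ A : Set Baire, IsSigma m Baire A → NullMeasurableSet A lam)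
    (hU : Unif m) (N : Set (Baire × Baire)) (hN : IsSigma m (Baire × Baire) N)
    (A : Set Baire) (hA : IsSigma m Baire A) : Capacitable N A := by
  classical
  obtain ⟨k, rfl⟩ : ∃ k', m = k' + 1 := ⟨m - 1, by omega⟩
  let R : Set (Baire × Baire) := {p | p.2 ∈ A ∧ (p.2, p.1) ∈ N}
  have hR : IsSigma (k + 1) (Baire × Baire) R := by
    have h1 : R = (fun p : Baire × Baire => p.2) ⁻¹' A ∩
        (fun p : Baire × Baire => (p.2, p.1)) ⁻¹' N := rfl
    rw [h1]
    exact (IsSigma.preimage continuous_snd hA).inter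
      (IsSigma.preimage (continuous_snd.prodMk continuous_fst) hN)
  obtain ⟨S, hSR, hS, huniq⟩ := hU R hR
  have hfun : ∀ z u v, (z, u) ∈ S → (z, v) ∈ S → u = v := by
    intro z u v hu hv
    exact (huniq z ⟨u, hSR hu⟩).unique hu hv
  let g : Baire → Baire := fun z => if h : ∃ u, (z, u) ∈ S then h.choose else 0
  have hgS : ∀ z, (∃ u, (z, u) ∈ S) → (z, g z) ∈ S := by
    intro z h
    simp only [g, dif_pos h]
    exact h.choose_spec
  let Z : Set Baire := {z | ∃ u, (z, u) ∈ S}
  have hZ : NullMeasurableSet Z lam := hLM _ hS.proj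
  have hcyl : ∀ i j, NullMeasurableSet {z | ∃ u : Baire, (z, u) ∈ S ∧ u i = j} lam := by
    intro i j
    apply hLM
    have hcl : IsClopen {p : Baire × Baire | p.2 i = j} :=
      (isClopen_discrete {j}).preimage (by fun_prop : Continuous fun p : Baire × Baire => p.2 i)
    exact (hS.inter (isSigma_of_isClopen (k + 1) _ _ hcl)).proj
  have hg : NullMeasurable g lam := by
    have h1 : ∀ i, NullMeasurable (fun z => g z i) lam := by
      intro i s _
      have h2 : (fun z => g z i) ⁻¹' s = ⋃ j ∈ s, {z | g z i = j} := by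
        ext z; simp
      rw [h2]
      refine NullMeasurableSet.biUnion (to_countable s) fun j _ => ?_
      have h3 : {z | g z i = j} = {z | ∃ u : Baire, (z, u) ∈ S ∧ u i = j} ∪
          (Zᶜ ∩ {_z | (0 : Baire) i = j}) := by
        ext z
        simp only [mem_setOf_eq, mem_union, mem_inter_iff, mem_compl_iff, Z]
        by_cases hz : ∃ u, (z, u) ∈ S
        · constructor
          · intro h
            exact Or.inl ⟨g z, hgS z hz, h⟩
          · rintro (⟨u, hu, h⟩ | ⟨h, -⟩)
            · rwa [hfun z (g z) u (hgS z hz) hu]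
            · exact absurd hz h
        · have h0 : g z = 0 := by simp only [g, dif_neg hz]
          rw [h0]
          constructor
          · intro h
            exact Or.inr ⟨hz, h⟩
          · rintro (⟨u, hu, h⟩ | ⟨-, h⟩)
            · exact absurd ⟨u, hu⟩ hz
            · exact h
      rw [h3]
      exact (hcyl i j).union (hZ.compl.inter (by simp))
    have h2 : AEMeasurable g lam := aemeasurable_pi_iff.2 fun i => (h1 i).aemeasurable
    exact h2.nullMeasurable
  obtain ⟨K, hKZ, hKc, hK0⟩ := H99Cap.exists_compacts g hg Z hZ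
  refine ⟨fun i => g '' K i, hKc, ?_, ?_⟩
  · rintro i _ ⟨y, hy, rfl⟩
    exact (hSR (hgS y (hKZ i hy))).1
  · refine measure_mono_null ?_ hK0
    rintro y ⟨⟨x, hxA, hxy⟩, hy2⟩
    refine ⟨?_, ?_⟩
    · obtain ⟨u, hu, -⟩ := huniq y ⟨x, hxA, hxy⟩
      exact ⟨u, hu⟩
    · intro hyK
      apply hy2
      obtain ⟨i, hi⟩ := mem_iUnion.1 hyK
      refine mem_iUnion.2 ⟨i, ⟨g y, ⟨y, hi, rfl⟩, ?_⟩⟩
      exact (hSR (hgS y (hKZ i hi))).2

/-- Capacitability for the random singleton `{y}` is measurability. -/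
theorem measurable_of_capacitable {A : Set Baire}
    (h : Capacitable {p : Baire × Baire | p.1 = p.2} A) : NullMeasurableSet A lam := by
  obtain ⟨P, hPc, hPA, h0⟩ := h
  have h1 : A \ ⋃ i, P i ⊆ {y | ∃ x ∈ A, (x, y) ∈ {p : Baire × Baire | p.1 = p.2}} \
      ⋃ i, {y | ∃ x ∈ P i, (x, y) ∈ {p : Baire × Baire | p.1 = p.2}} := by
    rintro y ⟨hyA, hyP⟩
    refine ⟨⟨y, hyA, rfl⟩, ?_⟩
    intro hy
    apply hyP
    obtain ⟨i, x, hx, hxy⟩ := mem_iUnion.1 hy
    have h2 : x = y := hxy
    subst h2
    exact mem_iUnion.2 ⟨i, hx⟩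
  have h2 : lam (A \ ⋃ i, P i) = 0 := measure_mono_null h1 h0
  have h3 : A = (⋃ i, P i) ∪ (A \ ⋃ i, P i) := by
    rw [union_diff_cancel]
    exact iUnion_subset hPA
  rw [h3]
  refine NullMeasurableSet.union ?_ (NullMeasurableSet.of_null h2)
  exact (MeasurableSet.iUnion fun i => (hPc i).isClosed.measurableSet).nullMeasurableSet

lemma isSigma_diag_set (m : ℕ) (hm : 1 ≤ m) :
    IsSigma m (Baire × Baire) {p : Baire × Baire | p.1 = p.2} := by
  have h1 : IsSigma 0 (Baire × Baire) {p : Baire × Baire | p.1 = p.2}ᶜ := by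
    change IsOpen _
    exact (isClosed_eq continuous_fst continuous_snd).isOpen_compl
  have h2 := IsSigma.compl_succ h1
  rw [compl_compl] at h2
  exact isSigma_mono hm h2

/-- Level by level: under `Σ¹_m`-uniformization, all `Σ¹_m` sets are Lebesgue measurable if and
only if all `Σ¹_m` sets are capacitable for all `Σ¹_m` random sets. -/
theorem measurable_iff_capacitable {m : ℕ} (hm : 1 ≤ m) (hU : Unif m) :
    (∀ A : Set Baire, IsSigma m Baire A → NullMeasurableSet A lam) ↔
      ∀ N : Set (Baire × Baire), IsSigma m (Baire × Baire) N →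
        ∀ A : Set Baire, IsSigma m Baire A → Capacitable N A := by
  constructor
  · intro hLM N hN A hA
    exact capac_sigma hm hLM hU N hN A hA
  · intro h A hA
    exact measurable_of_capacitable (h _ (isSigma_diag_set m hm) A hA)

end H97Cap
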